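import Pool.Agent.Q282.NF.Law3
import Pool.Agent.Y57.FD.HypM

/-!
# The law for functions of the residues of integral vectors
-/

set_option autoImplicit false

namespace Q282.GK

open Finset Q282.BP Q282.NF
open Pool.Agent.TH894.NE (Per mean)

/-- the box -/
noncomputable def kbox {κ : Type} [Fintype κ] [DecidableEq κ] (N : κ → ℤ) (L : κ → ℕ) : Finset (κ → ℤ) :=
  Fintype.piFinset fun i => Ico (N i) (N i + L i)

section

variable {κ : Type} [Fintype κ] [DecidableEq κ]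

lemma kbox_card_filter {d : ℕ} (e : κ ≃ Fin d) (N : κ → ℤ) (L : κ → ℕ) (P : (κ → ℤ) → Prop) [DecidablePred P] :
    ((kbox N L).filter P).card =
      ((bx (fun k => L (e.symm k))).filter fun n => P (fun i => N i + (n (e i) : ℤ))).card := by
  symm
  refine card_bij (fun n _ => fun i => N i + (n (e i) : ℤ)) ?_ ?_ ?_
  · intro n hn
    rw [mem_filter, mem_bx] at hn
    rw [mem_filter]
    refine ⟨?_, hn.2⟩
    unfold kbox
    rw [Fintype.mem_piFinset]
    intro i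
    rw [mem_Ico]
    have h1 := hn.1 (e i)
    rw [Equiv.symm_apply_apply] at h1
    constructor <;> omega
  · intro n _ n' _ h
    funext k
    have h1 := congrFun h (e.symm k)
    simp only [Equiv.apply_symm_apply] at h1
    omega
  · intro t ht
    rw [mem_filter] at ht
    have hb : ∀ i, N i ≤ t i ∧ t i < N i + L i := by
      intro i
      have h1 := ht.1
      unfold kbox at h1
      rw [Fintype.mem_piFinset] at h1
      exact mem_Ico.1 (h1 i)
    have h4 : (fun i => N i + (((fun k => (t (e.symm k) - N (e.symm k)).toNat) (e i) : ℕ) : ℤ)) = t := by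
      funext i
      show N i + (((t (e.symm (e i)) - N (e.symm (e i))).toNat : ℕ) : ℤ) = t i
      rw [Equiv.symm_apply_apply]
      have := hb i
      omega
    refine ⟨fun k => (t (e.symm k) - N (e.symm k)).toNat, ?_, h4⟩
    rw [mem_filter, mem_bx]
    refine ⟨?_, ?_⟩
    · intro k
      have := hb (e.symm k)
      show (t (e.symm k) - N (e.symm k)).toNat < L (e.symm k)
      omega
    · rw [h4]
      exact ht.2

/-- the mean over the residues -/
lemma mean_res {d : ℕ} (e : κ ≃ Fin d) (p : ℕ) [hp : Fact p.Prime] (N : κ → ℤ) (H : (κ → ZMod p) → ℝ) :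
    mean d p (fun n => H (fun i => ((N i + (n (e i) : ℤ) : ℤ) : ZMod p))) = (∑ u : κ → ZMod p, H u) / (p : ℝ) ^ d := by
  unfold Pool.Agent.TH894.NE.mean
  have h1 : ∀ n : Fin d → ℕ, H (fun i => ((N i + (n (e i) : ℤ) : ℤ) : ZMod p)) =
      (fun u : Fin d → ZMod p => H (fun i => (N i : ZMod p) + u (e i))) (fun k => (n k : ZMod p)) := by
    intro n
    show _ = H (fun i => (N i : ZMod p) + (n (e i) : ZMod p))
    congr 1
    funext i
    push_cast
    rfl
  rw [sum_congr rfl fun n _ => h1 n, Pool.Agent.Y57.FD.HM.sum_box p (fun u : Fin d → ZMod p => H (fun i => (N i : ZMod p) + u (e i)))]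
  have h2 : ∑ u : Fin d → ZMod p, H (fun i => (N i : ZMod p) + u (e i)) = ∑ u : κ → ZMod p, H u := by
    refine Fintype.sum_equiv ((e.symm.arrowCongr (Equiv.refl (ZMod p))).trans (Equiv.addLeft fun i => (N i : ZMod p))) _ _ fun u => ?_
    rfl
  rw [h2, one_div, inv_mul_eq_div]

/-- the law for functions of the residues -/
theorem law_gen (κ : Type) [Fintype κ] [DecidableEq κ] (δ A : ℝ) (hδ : 0 < δ) (hA : 0 < A) (B B₁ κ₀ M : ℝ) (hB : 0 < B)
    (hB₁ : 0 ≤ B₁) : ∃ c : ℝ, 0 < c ∧ ∃ C : ℝ, 0 ≤ C ∧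
    ∀ (H : (p : ℕ) → (κ → ZMod p) → ℝ) (m : ℕ → ℝ), (∀ X : ℕ, 3 ≤ X → |∑ p ∈ PP X, m p - κ₀ * Real.log (Real.log X)| ≤ M) →
    (∀ (p : ℕ) [Fact p.Prime], |(∑ u : κ → ZMod p, H p u) / (p : ℝ) ^ Fintype.card κ - m p| ≤ B₁ / (p : ℝ) ^ (3 / 2 : ℝ)) →
    (∀ p : ℕ, p.Prime → ∀ u, |H p u| ≤ B / Real.sqrt p) →
    ∀ (N : κ → ℤ) (L : κ → ℕ) (T : ℝ), 0 < T → (∀ k, T ≤ L k) → ∀ X₀ : ℕ, 16 ≤ X₀ → ∀ E : Finset (κ → ℤ), E ⊆ kbox N L →
      (∀ n ∈ E, ∃ X : ℕ, X₀ ≤ X ∧ (X : ℝ) ≤ T ^ c ∧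
        (Real.log (Real.log X)) ^ (1 / 2 + δ) < |∑ p ∈ PP X, H p (fun k => (n k : ZMod p)) - κ₀ * Real.log (Real.log X)|) →
      (E.card : ℝ) ≤ C * (∏ k, (L k : ℝ)) * (Real.log (Real.log X₀)) ^ (-A) := by
  classical
  obtain ⟨e⟩ : Nonempty (κ ≃ Fin (Fintype.card κ)) := ⟨Fintype.equivFin κ⟩
  obtain ⟨c, hc, C, hC, h⟩ := law_m (d := Fintype.card κ) δ A hδ hA B B₁ κ₀ M hB hB₁
  refine ⟨c, hc, C, hC, ?_⟩
  intro H m hm hmean hbd N L T hT hL X₀ hX₀ E hE hEx
  have h1 : E.card = ((bx (fun k => L (e.symm k))).filter fun n => (fun i => N i + (n (e i) : ℤ)) ∈ E).card := by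
    rw [← kbox_card_filter e N L (fun t => t ∈ E), filter_mem_eq_inter, inter_eq_right.2 hE]
  have h2 : ∏ k, (L k : ℝ) = ∏ k : Fin (Fintype.card κ), (L (e.symm k) : ℝ) :=
    Fintype.prod_equiv e _ _ fun k => by rw [Equiv.symm_apply_apply]
  rw [h1, h2]
  refine h (fun p n => H p (fun i => ((N i + (n (e i) : ℤ) : ℤ) : ZMod p))) m hm ?_ ?_ ?_ X₀ T hX₀ hT _ (fun k => hL _) _
    (filter_subset _ _) ?_
  · intro p hp n
    show H p _ = H p _
    congr 1
    funext i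
    rw [Int.cast_add, Int.cast_add, Int.cast_natCast, Int.cast_natCast, ZMod.natCast_mod]
  · intro p hp
    have : Fact p.Prime := ⟨hp⟩
    rw [mean_res e p N (H p)]
    exact hmean p
  · intro p hp n
    exact hbd p hp _
  · intro n hn
    rw [mem_filter] at hn
    exact hEx _ hn.2

end

end Q282.GK
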