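import Pool.Agent.Q282.GK.NF

/-!
# The law for functions of the residues of vectors of integers of a number field
-/

set_option autoImplicit false

namespace Q282.GK

open Finset NumberField IsDedekindDomain Filter Q282.NF
open Pool.Agent.H921R2.TatePole (below deg nm nm_eq)

theorem law_K (K : Type) [Field K] [NumberField K] (ι : Type) [Fintype ι] [DecidableEq ι] (P₀ : ℕ) (κ B B₁ : ℝ) (hB : 0 < B)
    (hB₁ : 0 ≤ B₁) (δ A : ℝ) (hδ : 0 < δ) (hA : 0 < A) :
    ∃ c : ℝ, 0 < c ∧ ∃ C : ℝ, 0 ≤ C ∧ ∀ (val : HeightOneSpectrum (𝓞 K) → (ι → 𝓞 K) → ℝ), Local K ι P₀ κ B B₁ val →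
    ∀ (b : Fin (Module.finrank ℚ K) → 𝓞 K),
    (∀ x : 𝓞 K, ∃ a : Fin (Module.finrank ℚ K) → ℤ, x = ∑ j, (a j : 𝓞 K) * b j) →
    ∀ (N : ι × Fin (Module.finrank ℚ K) → ℤ) (L : ι × Fin (Module.finrank ℚ K) → ℕ) (T : ℝ),
    0 < T → (∀ k, T ≤ L k) → ∀ X₀ : ℕ, 16 ≤ X₀ → ∀ E : Finset (ι × Fin (Module.finrank ℚ K) → ℤ), E ⊆ kbox N L →
      (∀ n ∈ E, ∃ X : ℕ, X₀ ≤ X ∧ (X : ℝ) ≤ T ^ c ∧ (Real.log (Real.log X)) ^ (1 / 2 + δ) <
        |∑ v ∈ SX K X, val v (comb b n) - κ * Real.log (Real.log X)|) →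
      (E.card : ℝ) ≤ C * (Real.log (Real.log X₀)) ^ (-A) * ∏ k, (L k : ℝ) := by
  classical
  obtain ⟨D, hD⟩ : ∃ D : ℕ, D = Module.finrank ℚ K := ⟨_, rfl⟩
  have hD1 : 1 ≤ D := by
    rw [hD]
    exact Module.finrank_pos
  obtain ⟨B₂, hB₂0, hB₂⟩ := ghd_mean (ι := ι) K P₀ κ B B₁ hB.le hB₁
  obtain ⟨M₀, hM₀0, hM₀⟩ := nu_sum K
  obtain ⟨M, hM⟩ : ∃ M : ℝ, M = |κ| * M₀ := ⟨_, rfl⟩
  have hM0 : 0 ≤ M := by rw [hM]; positivity
  obtain ⟨κf, hκ⟩ : ∃ κf : ℕ → ℝ, κf = fun f => if f = 1 then κ else 0 := ⟨_, rfl⟩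
  have hmu : ∀ f : ℕ, ∀ X : ℕ, 3 ≤ X → |∑ p ∈ BP.PP X, gmu K κ f p - κf f * Real.log (Real.log X)| ≤ M := by
    intro f X hX
    rw [hκ]
    unfold gmu
    show |_ - (if f = 1 then κ else 0) * _| ≤ M
    split_ifs with h1
    · rw [← mul_sum, ← mul_sub, abs_mul, hM]
      exact mul_le_mul_of_nonneg_left (hM₀ X hX) (abs_nonneg _)
    · simpa using hM0
  have hlaw := fun f : ℕ => law_gen (ι × Fin D) (δ / 2) A (by positivity) hA (B * D) B₂ (κf f) M (by positivity) hB₂0
  choose cf hcf Cf hCf hlawf using hlaw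
  obtain ⟨c, hc, hcmin⟩ := exists_min (s := Icc 1 D) cf hcf
  obtain ⟨X₁, hX₁⟩ := eventually_atTop.1 (((rt_large D hD1).and (room δ D hδ)).and (eventually_ge_atTop 16))
  have hX₁16 : 16 ≤ X₁ := (hX₁ X₁ le_rfl).2
  have hll : ∀ X : ℕ, 16 ≤ X → 0 < Real.log (Real.log X) := by
    intro X hX
    have h1 : (16 : ℝ) ≤ X := by exact_mod_cast hX
    have h3 : 1 < Real.log X := by
      rw [Real.lt_log_iff_exp_lt (by linarith)]
      linarith [Real.exp_one_lt_three]
    exact Real.log_pos h3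
  have hllm : ∀ X Y : ℕ, 16 ≤ X → X ≤ Y → Real.log (Real.log X) ≤ Real.log (Real.log Y) := by
    intro X Y hX hXY
    have e1 : (16 : ℝ) ≤ X := by exact_mod_cast hX
    have e2 : (X : ℝ) ≤ Y := by exact_mod_cast hXY
    exact Real.log_le_log (Real.log_pos (by linarith)) (Real.log_le_log (by linarith) e2)
  have hS0 : 0 ≤ ∑ f ∈ Icc 1 D, Cf f := sum_nonneg fun f _ => hCf f
  refine ⟨c, hc, (∑ f ∈ Icc 1 D, Cf f) * 2 ^ A + (Real.log (Real.log X₁)) ^ A, by
    have := hll X₁ hX₁16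
    positivity, ?_⟩
  intro val hloc
  have hB₂' := hB₂ val hloc
  rw [← hD]
  intro b hb N L T hT0 hTL X₀ hX₀ E hE hEx
  have hll0 := hll X₀ hX₀
  have hP0 : 0 < ∏ k, (L k : ℝ) := prod_pos fun k _ => hT0.trans_le (hTL k)
  rcases lt_or_ge X₀ X₁ with hlt | hge
  · have h1 : (E.card : ℝ) ≤ ∏ k, (L k : ℝ) := by
      have h2 := card_le_card hE
      unfold kbox at h2
      rw [Fintype.card_piFinset] at h2
      have h3 : ∏ k, (Ico (N k) (N k + L k)).card = ∏ k, L k := by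
        refine prod_congr rfl fun k _ => ?_
        rw [Int.card_Ico]
        omega
      rw [h3] at h2
      exact_mod_cast h2
    have h3 : 1 ≤ (Real.log (Real.log X₁)) ^ A * (Real.log (Real.log X₀)) ^ (-A) := by
      rw [Real.rpow_neg hll0.le, ← div_eq_mul_inv, one_le_div (Real.rpow_pos_of_pos hll0 _)]
      exact Real.rpow_le_rpow hll0.le (hllm X₀ X₁ hX₀ hlt.le) hA.le
    have h4 : 0 ≤ (Real.log (Real.log X₀)) ^ (-A) := (Real.rpow_pos_of_pos hll0 _).le
    have h5 : 0 ≤ (∑ f ∈ Icc 1 D, Cf f) * 2 ^ A := by positivity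
    calc (E.card : ℝ) ≤ 1 * ∏ k, (L k : ℝ) := by rw [one_mul]; exact h1
      _ ≤ ((Real.log (Real.log X₁)) ^ A * (Real.log (Real.log X₀)) ^ (-A)) * ∏ k, (L k : ℝ) :=
          mul_le_mul_of_nonneg_right h3 hP0.le
      _ ≤ _ := by
          refine mul_le_mul_of_nonneg_right (mul_le_mul_of_nonneg_right (by linarith) h4) hP0.le
  · rcases E.eq_empty_or_nonempty with hEe | ⟨n₀, hn₀⟩
    · rw [hEe, card_empty, Nat.cast_zero]
      have := hll X₁ hX₁16
      positivity
    have hT1 : 1 ≤ T := by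
      obtain ⟨X, h3, h4, -⟩ := hEx n₀ hn₀
      by_contra hlt
      push Not at hlt
      have h5 := Real.rpow_le_one hT0.le hlt.le hc.le
      have h6 : (16 : ℝ) ≤ X := by exact_mod_cast hX₀.trans h3
      linarith
    obtain ⟨Y₀, hY₀⟩ : ∃ Y₀ : ℕ, Y₀ = rt D X₀ := ⟨_, rfl⟩
    obtain ⟨⟨⟨hY16, hYll⟩, -⟩, -⟩ := hX₁ X₀ hge
    rw [← hY₀] at hY16 hYll
    -- the values as functions of the residues
    obtain ⟨H, hH⟩ : ∃ H : ℕ → (p : ℕ) → (ι × Fin D → ZMod p) → ℝ, H = fun f p u =>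
      ghd (fun v => val v (comb b (fun k => (((u k).val : ℕ) : ℤ)))) f p := ⟨_, rfl⟩
    have hHn : ∀ (f p : ℕ) (n : ι × Fin D → ℤ), H f p (fun k => (n k : ZMod p)) = ghd (fun v => val v (comb b n)) f p := by
      intro f p n
      rw [hH]
      show ghd _ f p = ghd _ f p
      unfold ghd
      split_ifs with hp
      · unfold gfib
        refine sum_congr rfl fun v _ => ?_
        split_ifs
        · have h1 := local_res hloc b v.1 n
          have h2 : (below v.1 : ℕ) = p := by rw [v.2]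
          rw [h2] at h1
          exact h1.symm
        · rfl
      · rfl
    -- the exceptional sets
    obtain ⟨Ef, hEf⟩ : ∃ Ef : ℕ → Finset (ι × Fin D → ℤ), Ef = fun f => (kbox N L).filter fun n =>
      ∃ X : ℕ, Y₀ ≤ X ∧ (X : ℝ) ≤ T ^ (cf f) ∧ (Real.log (Real.log X)) ^ (1 / 2 + δ / 2) <
        |∑ p ∈ BP.PP X, H f p (fun k => (n k : ZMod p)) - κf f * Real.log (Real.log X)| := ⟨_, rfl⟩
    have hcov : E ⊆ (Icc 1 D).biUnion Ef := by
      intro n hn
      obtain ⟨X, h3, h4, h5⟩ := hEx n hn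
      have hnb := hE hn
      by_contra hno
      rw [mem_biUnion] at hno
      push Not at hno
      have hX16 : 16 ≤ X := hX₀.trans h3
      have hbd : ∀ f ∈ Icc 1 D, |∑ p ∈ BP.PP (rt f X), ghd (fun v => val v (comb b n)) f p - κf f * Real.log (Real.log X)| ≤
          (Real.log (Real.log X)) ^ (1 / 2 + δ / 2) := by
        intro f hf
        have hf1 := (mem_Icc.1 hf).1
        have hfD := (mem_Icc.1 hf).2
        have hrt1 : Y₀ ≤ rt f X := by
          rw [le_rt hf1]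
          calc Y₀ ^ f ≤ Y₀ ^ D := Nat.pow_le_pow_right (by omega) hfD
            _ ≤ X₀ := (le_rt hD1).1 hY₀.le
            _ ≤ X := h3
        have hrt2 : rt f X ≤ X := (Nat.le_self_pow (by omega) _).trans ((le_rt hf1).1 le_rfl)
        have hrt3 : ((rt f X : ℕ) : ℝ) ≤ T ^ (cf f) := by
          have e1 : ((rt f X : ℕ) : ℝ) ≤ X := by exact_mod_cast hrt2
          exact e1.trans (h4.trans (Real.rpow_le_rpow_of_exponent_le hT1 (hcmin f hf)))
        have h6 := hno f hf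
        rw [hEf, mem_filter] at h6
        have h7 : ¬ (Real.log (Real.log (rt f X))) ^ (1 / 2 + δ / 2) <
            |∑ p ∈ BP.PP (rt f X), H f p (fun k => (n k : ZMod p)) - κf f * Real.log (Real.log (rt f X))| :=
          fun h8 => h6 ⟨hnb, rt f X, hrt1, hrt3, h8⟩
        push Not at h7
        rw [sum_congr rfl fun p _ => hHn f p n] at h7
        have h8 : κf f * Real.log (Real.log (rt f X)) = κf f * Real.log (Real.log X) := by
          by_cases hf1' : f = 1
          · have : rt f X = X := by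
              rw [hf1']
              refine le_antisymm ?_ ?_
              · have := (le_rt (f := 1) (X := X) (y := rt 1 X) le_rfl).1 le_rfl
                rw [pow_one] at this
                exact this
              · rw [le_rt le_rfl, pow_one]
            rw [this]
          · rw [hκ]
            show (if f = 1 then κ else 0) * _ = (if f = 1 then κ else 0) * _
            rw [if_neg hf1', zero_mul, zero_mul]
        rw [h8] at h7
        refine h7.trans ?_
        have h9 := hllm (rt f X) X (hY16.trans hrt1) hrt2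
        exact Real.rpow_le_rpow (hll _ (hY16.trans hrt1)).le h9 (by positivity)
      have hsum : ∑ v ∈ SX K X, val v (comb b n) - κ * Real.log (Real.log X) =
          ∑ f ∈ Icc 1 D, (∑ p ∈ BP.PP (rt f X), ghd (fun v => val v (comb b n)) f p - κf f * Real.log (Real.log X)) := by
        rw [sum_sub_distrib, sum_SX, ← hD, ← sum_mul]
        congr 2
        rw [hκ, sum_ite_eq' (Icc 1 D) 1, if_pos (mem_Icc.2 ⟨le_rfl, hD1⟩)]
      rw [hsum] at h5
      have h6 := (abs_sum_le_sum_abs (fun f => ∑ p ∈ BP.PP (rt f X), ghd (fun v => val v (comb b n)) f p -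
        κf f * Real.log (Real.log X)) (Icc 1 D)).trans (sum_le_sum hbd)
      rw [sum_const, Nat.card_Icc, nsmul_eq_mul] at h6
      have h7 := (hX₁ X (hge.trans h3)).1.2
      have h8 : ((D + 1 - 1 : ℕ) : ℝ) = D := by
        rw [Nat.add_sub_cancel]
      rw [h8] at h6
      linarith
    have hcard : ∀ f ∈ Icc 1 D, ((Ef f).card : ℝ) ≤ Cf f * (∏ k, (L k : ℝ)) * (Real.log (Real.log Y₀)) ^ (-A) := by
      intro f hf
      have hf1 := (mem_Icc.1 hf).1
      refine hlawf f (H f) (gmu K κ f) (hmu f) ?_ ?_ N L T hT0 hTL Y₀ hY16 (Ef f) ?_ ?_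
      · intro p hp
        rw [hH]
        exact hB₂' f hf1 p D b hb
      · intro p hp u
        rw [hH]
        show |ghd _ f p| ≤ _
        unfold ghd
        rw [dif_pos hp]
        have h2 := gfib_le f hf1 ⟨p, hp⟩ B hB.le (fun v => val v (comb b (fun k => (((u k).val : ℕ) : ℤ)))) fun v => local_le hloc v _
        rw [← hD] at h2
        exact h2
      · rw [hEf]
        exact filter_subset _ _
      · intro n hn
        rw [hEf] at hn
        exact (mem_filter.1 hn).2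
    have hYA : (Real.log (Real.log Y₀)) ^ (-A) ≤ 2 ^ A * (Real.log (Real.log X₀)) ^ (-A) := by
      have h1 : (Real.log (Real.log Y₀)) ^ (-A) ≤ (1 / 2 * Real.log (Real.log X₀)) ^ (-A) :=
        Real.rpow_le_rpow_of_nonpos (by positivity) hYll (by linarith)
      refine h1.trans (le_of_eq ?_)
      rw [Real.mul_rpow (by norm_num) hll0.le, one_div, Real.rpow_neg (by norm_num), Real.inv_rpow (by norm_num), inv_inv]
    have h1 : (E.card : ℝ) ≤ ∑ f ∈ Icc 1 D, ((Ef f).card : ℝ) := by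
      have := (card_le_card hcov).trans card_biUnion_le
      exact_mod_cast this
    have h2 : 0 ≤ (Real.log (Real.log X₁)) ^ A := by
      have := hll X₁ hX₁16
      positivity
    calc (E.card : ℝ) ≤ ∑ f ∈ Icc 1 D, Cf f * (∏ k, (L k : ℝ)) * (Real.log (Real.log Y₀)) ^ (-A) := h1.trans (sum_le_sum hcard)
      _ = (∑ f ∈ Icc 1 D, Cf f) * (∏ k, (L k : ℝ)) * (Real.log (Real.log Y₀)) ^ (-A) := by
          rw [sum_mul, sum_mul]
      _ ≤ (∑ f ∈ Icc 1 D, Cf f) * (∏ k, (L k : ℝ)) * (2 ^ A * (Real.log (Real.log X₀)) ^ (-A)) :=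
          mul_le_mul_of_nonneg_left hYA (mul_nonneg hS0 hP0.le)
      _ = ((∑ f ∈ Icc 1 D, Cf f) * 2 ^ A) * (Real.log (Real.log X₀)) ^ (-A) * ∏ k, (L k : ℝ) := by ring
      _ ≤ _ := by
          refine mul_le_mul_of_nonneg_right (mul_le_mul_of_nonneg_right (by linarith) ?_) hP0.le
          exact (Real.rpow_pos_of_pos hll0 _).le

end Q282.GK
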