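import Pool.Agent.Q282.GK.Law
import Pool.Agent.Q282.NF.LawNF

/-!
# The law for functions of the residues of vectors of integers of a number field
-/

set_option autoImplicit false

namespace Q282.GK

open Finset NumberField IsDedekindDomain Filter Q282.NF
open Pool.Agent.H921R2.TatePole (below deg nm nm_eq)

/-- the vectors with given coordinates -/
def comb {O : Type} [CommRing O] {ι : Type} {d : ℕ} (b : Fin d → O) (n : ι × Fin d → ℤ) : ι → O := fun i => ∑ j, (n (i, j) : O) * b j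

section

variable {O F : Type} [CommRing O] [Field F] {ι : Type} {d : ℕ}

lemma comb_res (p : ℕ) [NeZero p] [CharP F p] (π : O →+* F) (b : Fin d → O) (n : ι × Fin d → ℤ) (i : ι) :
    π (comb b n i) = π (comb b (fun k => (((n k : ZMod p).val : ℕ) : ℤ)) i) := by
  unfold comb
  rw [map_sum, map_sum]
  refine sum_congr rfl fun j _ => ?_
  rw [map_mul, map_mul, map_intCast, map_intCast]
  congr 1
  rw [Int.cast_natCast]
  have h : ((n (i, j) : ZMod p).val : ℤ) = n (i, j) % p := ZMod.val_intCast _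
  have h1 : (((n (i, j) : ZMod p).val : ℕ) : F) = (((n (i, j) : ZMod p).val : ℤ) : F) := by rw [Int.cast_natCast]
  rw [h1, h]
  have h2 : (n (i, j) : F) = ((n (i, j) % p + p * (n (i, j) / p) : ℤ) : F) := by rw [Int.emod_add_mul_ediv]
  rw [h2]
  push_cast
  rw [CharP.cast_eq_zero F p, zero_mul, add_zero]

/-- the mean over the residues -/
theorem sum_res [Fintype F] [Fintype ι] [DecidableEq ι] (p : ℕ) [hp : Fact p.Prime] [CharP F p] (π : O →+* F)
    (hπ : Function.Surjective π)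
    (b : Fin d → O) (hb : ∀ x : O, ∃ a : Fin d → ℤ, x = ∑ j, (a j : O) * b j) (G : (ι → F) → ℝ) :
    (∑ u : ι × Fin d → ZMod p, G (fun i => π (comb b (fun k => (((u k).val : ℕ) : ℤ)) i))) / (p : ℝ) ^ Fintype.card (ι × Fin d) =
      (∑ u : ι → F, G u) / (Fintype.card F : ℝ) ^ Fintype.card ι := by
  classical
  obtain ⟨c, hc⟩ : ∃ c : ZMod p →+* F, c = ZMod.castHom (dvd_refl p) F := ⟨_, rfl⟩
  obtain ⟨Φ, hΦ⟩ : ∃ Φ : (ι × Fin d → ZMod p) →+ (ι → F), ∀ u i, Φ u i = ∑ j, c (u (i, j)) * π (b j) :=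
    ⟨{ toFun := fun u i => ∑ j, c (u (i, j)) * π (b j)
       map_zero' := by
         funext i
         simp
       map_add' := by
         intro u v
         funext i
         simp [add_mul, sum_add_distrib] }, fun _ _ => rfl⟩
  have hsurj : Function.Surjective Φ := by
    intro v
    have h1 : ∀ i, ∃ a : Fin d → ℤ, v i = ∑ j, (a j : F) * π (b j) := by
      intro i
      obtain ⟨x, hx⟩ := hπ (v i)
      obtain ⟨a, ha⟩ := hb x
      refine ⟨a, ?_⟩
      rw [← hx, ha, map_sum]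
      refine sum_congr rfl fun j _ => ?_
      rw [map_mul, map_intCast]
    choose a ha using h1
    refine ⟨fun k => (a k.1 k.2 : ZMod p), ?_⟩
    funext i
    rw [hΦ, ha]
    refine sum_congr rfl fun j _ => ?_
    rw [map_intCast]
  have h1 : ∀ u : ι × Fin d → ZMod p, G (fun i => π (comb b (fun k => (((u k).val : ℕ) : ℤ)) i)) = G (Φ u) := by
    intro u
    congr 1
    funext i
    rw [hΦ]
    unfold comb
    rw [map_sum]
    refine sum_congr rfl fun j _ => ?_
    rw [map_mul, map_intCast, Int.cast_natCast]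
    congr 1
    have h2 : ((((u (i, j)).val : ℕ) : ZMod p)) = u (i, j) := ZMod.natCast_zmod_val _
    conv_rhs => rw [← h2]
    rw [map_natCast]
  rw [sum_congr rfl fun u _ => h1 u]
  have h2 := sum_surj Φ hsurj G
  have h4 : (Fintype.card (ι × Fin d → ZMod p) : ℝ) = (p : ℝ) ^ Fintype.card (ι × Fin d) := by
    rw [Fintype.card_fun, ZMod.card]
    push_cast
    rfl
  have h5 : (Fintype.card (ι → F) : ℝ) = (Fintype.card F : ℝ) ^ Fintype.card ι := by
    rw [Fintype.card_fun]
    push_cast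
    rfl
  rw [h4, h5] at h2
  have h6 : (0 : ℝ) < (p : ℝ) ^ Fintype.card (ι × Fin d) := by
    have : (0 : ℝ) < p := by exact_mod_cast hp.out.pos
    positivity
  have h7 : (0 : ℝ) < (Fintype.card F : ℝ) ^ Fintype.card ι := by
    have : (0 : ℝ) < Fintype.card F := by exact_mod_cast Fintype.card_pos
    positivity
  rw [div_eq_div_iff h6.ne' h7.ne', h2]
  ring

end

section

variable {K : Type} [Field K] [NumberField K]

/-- the primes of norm at most `X` -/
noncomputable def SX (K : Type) [Field K] [NumberField K] (X : ℕ) : Finset (HeightOneSpectrum (𝓞 K)) := (fin_le (K := K) X).toFinset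

lemma mem_SX {X : ℕ} {v : HeightOneSpectrum (𝓞 K)} : v ∈ SX K X ↔ Ideal.absNorm v.asIdeal ≤ X := by
  unfold SX
  rw [Set.Finite.mem_toFinset, Set.mem_ofPred_eq]

/-- the values at the primes of degree `f` over `p` -/
noncomputable def gfib (g : HeightOneSpectrum (𝓞 K) → ℝ) (f : ℕ) (p : Nat.Primes) : ℝ :=
  ∑ v : {v : HeightOneSpectrum (𝓞 K) // below v = p}, if deg v.1 = f then g v.1 else 0

/-- the values at the primes of degree `f` over `p` -/
noncomputable def ghd (g : HeightOneSpectrum (𝓞 K) → ℝ) (f p : ℕ) : ℝ := if hp : p.Prime then gfib g f ⟨p, hp⟩ else 0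

lemma sum_SX (g : HeightOneSpectrum (𝓞 K) → ℝ) (X : ℕ) :
    ∑ v ∈ SX K X, g v = ∑ f ∈ Icc 1 (Module.finrank ℚ K), ∑ p ∈ BP.PP (rt f X), ghd g f p := by
  classical
  obtain ⟨S, hS⟩ : ∃ S : Finset (HeightOneSpectrum (𝓞 K)), S = SX K X := ⟨_, rfl⟩
  have hmem : ∀ v, v ∈ S ↔ Ideal.absNorm v.asIdeal ≤ X := by
    intro v
    rw [hS, mem_SX]
  rw [← hS]
  have h3' : ∀ (f : ℕ) (p : Nat.Primes), (p : ℕ) ^ f ≤ X →
      gfib g f p = ∑ v ∈ S, if deg v = f ∧ below v = p then g v else 0 := by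
    intro f p hpX
    unfold gfib
    rw [← sum_filter, ← sum_filter]
    refine sum_bij (fun v _ => v.1) ?_ ?_ ?_ ?_
    · rintro ⟨v, hv⟩ h
      rw [mem_filter] at h ⊢
      refine ⟨?_, h.2, hv⟩
      have h5 : deg v = f := h.2
      rw [hmem, norm_eq, hv, h5]
      exact hpX
    · rintro ⟨v, _⟩ _ ⟨w, _⟩ _ h
      exact Subtype.ext h
    · intro v hv
      rw [mem_filter] at hv
      refine ⟨⟨v, hv.2.2⟩, ?_, rfl⟩
      rw [mem_filter]
      exact ⟨mem_univ _, hv.2.1⟩
    · intro v _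
      rfl
  have h3 : ∀ f p : ℕ, 1 ≤ f → p ∈ BP.PP (rt f X) → ghd g f p = ∑ v ∈ S, if deg v = f ∧ (below v : ℕ) = p then g v else 0 := by
    intro f p hf hp
    have hpp : p.Prime := (mem_filter.1 hp).2
    have hpX : p ^ f ≤ X := (le_rt hf).1 (mem_Icc.1 (mem_filter.1 hp).1).2
    unfold ghd
    rw [dif_pos hpp, h3' f ⟨p, hpp⟩ hpX]
    refine sum_congr rfl fun v _ => ?_
    have h5 : below v = ⟨p, hpp⟩ ↔ (below v : ℕ) = p := ⟨fun h => by rw [h], fun h => Subtype.ext h⟩
    simp only [h5]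
  rw [sum_congr rfl fun f hf => sum_congr rfl fun p hp => h3 f p (mem_Icc.1 hf).1 hp]
  have h4 : ∀ f ∈ Icc 1 (Module.finrank ℚ K), ∑ p ∈ BP.PP (rt f X), ∑ v ∈ S, (if deg v = f ∧ (below v : ℕ) = p then g v else 0) =
      ∑ v ∈ S, if deg v = f then g v else 0 := by
    intro f hf
    rw [sum_comm]
    refine sum_congr rfl fun v hv => ?_
    by_cases hdf : deg v = f
    · rw [if_pos hdf, sum_eq_single (below v : ℕ)]
      · rw [if_pos ⟨hdf, rfl⟩]
      · intro p _ hne
        rw [if_neg]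
        rintro ⟨-, h⟩
        exact hne h.symm
      · intro h
        exfalso
        apply h
        have h5 : (below v : ℕ) ^ f ≤ X := by
          have := (hmem v).1 hv
          rw [norm_eq, hdf] at this
          exact this
        unfold BP.PP
        rw [mem_filter, mem_Icc]
        exact ⟨⟨(below v).prop.one_lt.le, (le_rt (mem_Icc.1 hf).1).2 h5⟩, (below v).prop⟩
    · rw [if_neg hdf]
      refine sum_eq_zero fun p _ => ?_
      rw [if_neg]
      rintro ⟨h, -⟩
      exact hdf h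
  rw [sum_congr rfl h4, sum_comm]
  refine sum_congr rfl fun v _ => ?_
  rw [sum_ite_eq, if_pos]
  rw [mem_Icc]
  exact ⟨(nm_eq v).2.1, deg_le v⟩

/-- The local values: functions of the residues with given bounds and means. -/
def Local (K : Type) [Field K] [NumberField K] (ι : Type) [Fintype ι] [DecidableEq ι] (P₀ : ℕ) (κ B B₁ : ℝ)
    (val : HeightOneSpectrum (𝓞 K) → (ι → 𝓞 K) → ℝ) : Prop :=
  ∀ v : HeightOneSpectrum (𝓞 K), ∃ (F : Type) (_ : Field F) (_ : Fintype F) (π : 𝓞 K →+* F) (G : (ι → F) → ℝ),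
    Function.Surjective π ∧ CharP F (below v : ℕ) ∧ Fintype.card F = Ideal.absNorm v.asIdeal ∧
    (∀ t, val v t = G (fun i => π (t i))) ∧ (∀ u, |G u| ≤ B / Real.sqrt (Fintype.card F)) ∧
    (P₀ ≤ (below v : ℕ) → |(∑ u : ι → F, G u) / (Fintype.card F : ℝ) ^ Fintype.card ι - κ / Fintype.card F| ≤
      B₁ / (Fintype.card F : ℝ) ^ (3 / 2 : ℝ))

variable {ι : Type} [Fintype ι] [DecidableEq ι]

lemma gfib_le (f : ℕ) (hf : 1 ≤ f) (p : Nat.Primes) (B : ℝ) (hB : 0 ≤ B) (g : HeightOneSpectrum (𝓞 K) → ℝ)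
    (hg : ∀ v, |g v| ≤ B / Real.sqrt (Ideal.absNorm v.asIdeal)) :
    |gfib g f p| ≤ B * Module.finrank ℚ K / Real.sqrt (p : ℕ) := by
  unfold gfib
  refine (abs_sum_le_sum_abs _ _).trans ?_
  have hp0 : (0 : ℝ) < ((p : ℕ) : ℝ) := by exact_mod_cast p.prop.pos
  have h1 : ∀ v : {v : HeightOneSpectrum (𝓞 K) // below v = p}, |if deg v.1 = f then g v.1 else 0| ≤ B / Real.sqrt (p : ℕ) := by
    rintro ⟨v, hvp⟩
    show |if deg v = f then g v else 0| ≤ _
    split_ifs with h
    · refine (hg v).trans ?_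
      refine div_le_div_of_nonneg_left hB (Real.sqrt_pos.2 hp0) (Real.sqrt_le_sqrt ?_)
      rw [norm_eq, hvp, h]
      exact_mod_cast Nat.le_self_pow (by omega) (p : ℕ)
    · rw [abs_zero]
      positivity
  refine (sum_le_sum fun v _ => h1 v).trans ?_
  rw [sum_const, card_univ, nsmul_eq_mul, mul_comm B, mul_div_assoc]
  exact mul_le_mul_of_nonneg_right (fib_card p) (by positivity)

/-- the local means -/
noncomputable def gmu (K : Type) [Field K] [NumberField K] (κ : ℝ) (f p : ℕ) : ℝ := if f = 1 then κ * (nu K p / p) else 0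

lemma local_le {P₀ : ℕ} {κ B B₁ : ℝ} {val : HeightOneSpectrum (𝓞 K) → (ι → 𝓞 K) → ℝ} (h : Local K ι P₀ κ B B₁ val)
    (v : HeightOneSpectrum (𝓞 K)) (t : ι → 𝓞 K) : |val v t| ≤ B / Real.sqrt (Ideal.absNorm v.asIdeal) := by
  obtain ⟨F, _, _, π, G, hπ, hch, hcard, hval, hbd, -⟩ := h v
  rw [hval, ← hcard]
  exact hbd _

lemma local_res {P₀ : ℕ} {κ B B₁ : ℝ} {val : HeightOneSpectrum (𝓞 K) → (ι → 𝓞 K) → ℝ} (h : Local K ι P₀ κ B B₁ val)
    {d : ℕ} (b : Fin d → 𝓞 K) (v : HeightOneSpectrum (𝓞 K)) (n : ι × Fin d → ℤ) :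
    val v (comb b n) = val v (comb b (fun k => (((n k : ZMod (below v : ℕ)).val : ℕ) : ℤ))) := by
  have : Fact (below v : ℕ).Prime := ⟨(below v).prop⟩
  obtain ⟨F, _, _, π, G, hπ, hch, hcard, hval, -, -⟩ := h v
  rw [hval, hval]
  congr 1
  funext i
  exact comb_res (below v : ℕ) π b n i

theorem ghd_mean (K : Type) [Field K] [NumberField K] (P₀ : ℕ) (κ B B₁ : ℝ) (hB : 0 ≤ B) (hB₁ : 0 ≤ B₁) :
    ∃ B₂ : ℝ, 0 ≤ B₂ ∧ ∀ (val : HeightOneSpectrum (𝓞 K) → (ι → 𝓞 K) → ℝ), Local K ι P₀ κ B B₁ val →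
    ∀ f : ℕ, 1 ≤ f → ∀ (p : ℕ) [Fact p.Prime] (d : ℕ) (b : Fin d → 𝓞 K),
    (∀ x : 𝓞 K, ∃ a : Fin d → ℤ, x = ∑ j, (a j : 𝓞 K) * b j) →
    |(∑ u : ι × Fin d → ZMod p, ghd (fun v => val v (comb b (fun k => (((u k).val : ℕ) : ℤ)))) f p) /
      (p : ℝ) ^ Fintype.card (ι × Fin d) - gmu K κ f p| ≤ B₂ / (p : ℝ) ^ (3 / 2 : ℝ) := by
  classical
  obtain ⟨D, hD⟩ : ∃ D : ℝ, D = Module.finrank ℚ K := ⟨_, rfl⟩
  have hD0 : 0 ≤ D := by rw [hD]; positivity
  obtain ⟨Q, hQ⟩ : ∃ Q : ℝ, Q = (P₀ : ℝ) ^ (3 / 2 : ℝ) := ⟨_, rfl⟩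
  have hQ0 : 0 ≤ Q := by rw [hQ]; positivity
  refine ⟨D * (B₁ + |κ|) + (B * D + |κ| * D) * Q, by positivity, ?_⟩
  intro val hloc f hf p hpF d b hb
  have hp : p.Prime := hpF.out
  have hp0 : (0 : ℝ) < p := by exact_mod_cast hp.pos
  have hp1 : (1 : ℝ) ≤ p := by exact_mod_cast hp.one_lt.le
  have hp32 : 0 < (p : ℝ) ^ (3 / 2 : ℝ) := by positivity
  have hnu : nu K p ≤ D := by
    have h1 := nu_eq (K := K) ⟨p, hp⟩
    have h2 := Pool.Agent.H921R2.TatePole.R_le (K := K) ⟨p, hp⟩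
    have h3 : nu K p = (Pool.Agent.H921R2.TatePole.R K ⟨p, hp⟩ : ℝ) := h1
    rw [h3, hD]
    exact_mod_cast h2
  have hnu0 : 0 ≤ nu K p := by unfold nu; positivity
  have hpc : (0 : ℝ) < (p : ℝ) ^ Fintype.card (ι × Fin d) := by positivity
  have hcardp : (Fintype.card (ι × Fin d → ZMod p) : ℝ) = (p : ℝ) ^ Fintype.card (ι × Fin d) := by
    rw [Fintype.card_fun, ZMod.card]
    push_cast
    rfl
  rcases lt_or_ge p P₀ with h5 | h5
  · -- small primes
    have h1 : |(∑ u : ι × Fin d → ZMod p, ghd (fun v => val v (comb b (fun k => (((u k).val : ℕ) : ℤ)))) f p) /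
        (p : ℝ) ^ Fintype.card (ι × Fin d)| ≤ B * D := by
      rw [abs_div, abs_of_pos hpc, div_le_iff₀ hpc]
      refine (abs_sum_le_sum_abs _ _).trans ?_
      have h2 : ∀ u : ι × Fin d → ZMod p, |ghd (fun v => val v (comb b (fun k => (((u k).val : ℕ) : ℤ)))) f p| ≤ B * D := by
        intro u
        unfold ghd
        rw [dif_pos hp]
        refine (gfib_le f hf ⟨p, hp⟩ B hB _ fun v => local_le hloc v _).trans ?_
        rw [← hD]
        show B * D / Real.sqrt p ≤ _
        refine div_le_self (by positivity) ?_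
        exact Real.one_le_sqrt.2 hp1
      refine (sum_le_sum fun u _ => h2 u).trans ?_
      rw [sum_const, card_univ, nsmul_eq_mul, hcardp]
      exact le_of_eq (by ring)
    have h2 : |gmu K κ f p| ≤ |κ| * D := by
      unfold gmu
      split_ifs
      · rw [abs_mul]
        refine mul_le_mul_of_nonneg_left ?_ (abs_nonneg _)
        rw [abs_of_nonneg (by positivity), div_le_iff₀ hp0]
        nlinarith
      · rw [abs_zero]
        positivity
    have h3 : (p : ℝ) ^ (3 / 2 : ℝ) ≤ Q := by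
      rw [hQ]
      refine Real.rpow_le_rpow hp0.le ?_ (by norm_num)
      exact_mod_cast h5.le
    rw [le_div_iff₀ hp32]
    have h4 := abs_sub ((∑ u : ι × Fin d → ZMod p, ghd (fun v => val v (comb b (fun k => (((u k).val : ℕ) : ℤ)))) f p) /
        (p : ℝ) ^ Fintype.card (ι × Fin d)) (gmu K κ f p)
    have h6 := h4.trans (add_le_add h1 h2)
    calc _ ≤ (B * D + |κ| * D) * Q := mul_le_mul h6 h3 hp32.le (by positivity)
      _ ≤ _ := by
          have : 0 ≤ D * (B₁ + |κ|) := by positivity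
          linarith
  · -- large primes
    obtain ⟨P, hP⟩ : ∃ P : Nat.Primes, (P : ℕ) = p := ⟨⟨p, hp⟩, rfl⟩
    have hhd : ∀ g : HeightOneSpectrum (𝓞 K) → ℝ, ghd g f p = gfib g f P := by
      intro g
      unfold ghd
      rw [dif_pos hp]
      have : (⟨p, hp⟩ : Nat.Primes) = P := Subtype.ext hP.symm
      rw [this]
    have hmean : (∑ u : ι × Fin d → ZMod p, ghd (fun v => val v (comb b (fun k => (((u k).val : ℕ) : ℤ)))) f p) /
        (p : ℝ) ^ Fintype.card (ι × Fin d) =
        ∑ v : {v : HeightOneSpectrum (𝓞 K) // below v = P}, if deg v.1 = f then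
          (∑ u : ι × Fin d → ZMod p, val v.1 (comb b (fun k => (((u k).val : ℕ) : ℤ)))) / (p : ℝ) ^ Fintype.card (ι × Fin d) else 0 := by
      have e1 : ∑ u : ι × Fin d → ZMod p, ghd (fun v => val v (comb b (fun k => (((u k).val : ℕ) : ℤ)))) f p =
          ∑ v : {v : HeightOneSpectrum (𝓞 K) // below v = P}, ∑ u : ι × Fin d → ZMod p,
            (if deg v.1 = f then val v.1 (comb b (fun k => (((u k).val : ℕ) : ℤ))) else 0) := by
        rw [sum_comm]
        refine sum_congr rfl fun u _ => ?_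
        rw [hhd]
        rfl
      rw [e1, sum_div]
      refine sum_congr rfl fun v _ => ?_
      split_ifs
      · rfl
      · rw [sum_const_zero, zero_div]
    have hmu : gmu K κ f p = ∑ v : {v : HeightOneSpectrum (𝓞 K) // below v = P}, if deg v.1 = f then
        (if f = 1 then κ / p else 0) else 0 := by
      unfold gmu
      split_ifs with h1
      · have h2 : nu K p = (Pool.Agent.H921R2.TatePole.R K P : ℝ) := by
          rw [← hP]
          exact nu_eq P
        rw [h2]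
        unfold Pool.Agent.H921R2.TatePole.R
        rw [← sum_filter, sum_const, nsmul_eq_mul, h1]
        ring
      · simp
    have hterm : ∀ v : {v : HeightOneSpectrum (𝓞 K) // below v = P}, |(if deg v.1 = f then
          (∑ u : ι × Fin d → ZMod p, val v.1 (comb b (fun k => (((u k).val : ℕ) : ℤ)))) / (p : ℝ) ^ Fintype.card (ι × Fin d) else 0) -
        (if deg v.1 = f then (if f = 1 then κ / p else 0) else 0)| ≤ (B₁ + |κ|) / (p : ℝ) ^ (3 / 2 : ℝ) := by
      rintro ⟨v, hvP⟩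
      show |(if deg v = f then _ else 0) - _| ≤ _
      have hvp : (below v : ℕ) = p := by rw [hvP, hP]
      by_cases hdf : deg v = f
      · rw [if_pos hdf, if_pos hdf]
        obtain ⟨F, _, _, π, G, hπ, hch, hcard, hval, -, hmn⟩ := hloc v
        have h1 := hmn (by rw [hvp]; exact h5)
        have hchp : CharP F p := by rw [← hvp]; exact hch
        have h0 : (∑ u : ι × Fin d → ZMod p, val v (comb b (fun k => (((u k).val : ℕ) : ℤ)))) / (p : ℝ) ^ Fintype.card (ι × Fin d) =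
            (∑ u : ι → F, G u) / (Fintype.card F : ℝ) ^ Fintype.card ι := by
          rw [← sum_res p π hπ b hb G]
          congr 1
          exact sum_congr rfl fun u _ => hval _
        rw [h0]
        rw [hcard, norm_eq, hvp, hdf] at h1 ⊢
        by_cases hf1 : f = 1
        · rw [if_pos hf1]
          rw [hf1, pow_one] at h1 ⊢
          refine h1.trans (div_le_div_of_nonneg_right ?_ hp32.le)
          linarith [abs_nonneg κ]
        · rw [if_neg hf1, sub_zero]
          have h2 : (p : ℝ) ^ (3 / 2 : ℝ) ≤ ((p ^ f : ℕ) : ℝ) := by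
            have h3 : (p : ℝ) ^ (3 / 2 : ℝ) ≤ (p : ℝ) ^ (f : ℝ) := by
              refine Real.rpow_le_rpow_of_exponent_le hp1 ?_
              have : (2 : ℝ) ≤ f := by exact_mod_cast (by omega : 2 ≤ f)
              linarith
            rw [Real.rpow_natCast] at h3
            push_cast
            exact h3
          have hpf1 : (1 : ℝ) ≤ ((p ^ f : ℕ) : ℝ) := by exact_mod_cast Nat.one_le_pow _ _ hp.pos
          have h3 : |κ / ((p ^ f : ℕ) : ℝ)| ≤ |κ| / (p : ℝ) ^ (3 / 2 : ℝ) := by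
            rw [abs_div, abs_of_pos (by linarith : (0 : ℝ) < ((p ^ f : ℕ) : ℝ))]
            exact div_le_div_of_nonneg_left (abs_nonneg _) hp32 h2
          have h4 : B₁ / ((p ^ f : ℕ) : ℝ) ^ (3 / 2 : ℝ) ≤ B₁ / (p : ℝ) ^ (3 / 2 : ℝ) := by
            refine div_le_div_of_nonneg_left hB₁ hp32 (h2.trans ?_)
            calc ((p ^ f : ℕ) : ℝ) = ((p ^ f : ℕ) : ℝ) ^ (1 : ℝ) := (Real.rpow_one _).symm
              _ ≤ _ := Real.rpow_le_rpow_of_exponent_le hpf1 (by norm_num)
          have h6 := abs_sub_abs_le_abs_sub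
            ((∑ u : ι → F, G u) / ((p ^ f : ℕ) : ℝ) ^ Fintype.card ι) (κ / ((p ^ f : ℕ) : ℝ))
          rw [add_div]
          linarith
      · rw [if_neg hdf, if_neg hdf, sub_zero, abs_zero]
        positivity
    rw [hmean, hmu, ← sum_sub_distrib]
    refine (abs_sum_le_sum_abs _ _).trans ((sum_le_sum fun v _ => hterm v).trans ?_)
    rw [sum_const, card_univ, nsmul_eq_mul, ← mul_div_assoc]
    refine div_le_div_of_nonneg_right ?_ hp32.le
    have h1 := fib_card (K := K) P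
    rw [← hD] at h1
    have h2 := mul_le_mul_of_nonneg_right h1 (by positivity : 0 ≤ B₁ + |κ|)
    have h3 : 0 ≤ (B * D + |κ| * D) * Q := by positivity
    linarith

end

end Q282.GK
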